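import Pool.Agent.E8helper19.Leg.Final

/-!
# MP_87bea5_an, Q1: there are no Legendre multiplier sequences of odd polynomial degree

Let `Q` be a real polynomial of odd degree. Write `m = 2 k + 1`, `s = k (k + 1)` and
`Q(k) = A(s) + m B(s)`; then `B ≠ 0`. The test polynomial is `(1 + x) ^ n`, whose expansion is
`2 ^ n ∑ W_n(k) P_k` with positive weights `W_n(k)`. Let `f_n` be the `r`-th derivative of the image
of `2 ^ (-n) (1 + x) ^ n`. If it has only real zeros, then
`f(1) ^ 2 ≤ f(-1) ^ 2 exp (4 f'/f + 4 ((f'/f) ^ 2 - f''/f))`, the derivatives being taken at `-1`.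
Alternating sums give that `(2 n + 1) f_n(-1)`, `(2 n + 1) f_n'(-1)` and `(2 n + 1) f_n''(-1)`
converge, the first one to a value which is, for all large `r`, not zero, because `B ≠ 0`. So the
right hand side tends to zero, but `f_n(1)` is bounded below.
-/

set_option autoImplicit false

open Polynomial

namespace Pool.Agent.Results.MP_87bea5_an.OddDegreeH19

/-- The Legendre polynomial `P_n(x) = 1 / (2 ^ n n!) (d / dx) ^ n (x ^ 2 - 1) ^ n`. -/
noncomputable def legendreP (n : ℕ) : ℝ[X] :=
  C (1 / (2 ^ n * n.factorial) : ℝ) * derivative^[n] ((X ^ 2 - 1 : ℝ[X]) ^ n)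

/-- `p` has only real zeros: all its complex zeros are real, or it is the zero polynomial. -/
def OnlyRealZeros (p : ℝ[X]) : Prop := p = 0 ∨ ∀ z : ℂ, aeval z p = 0 → z.im = 0

/-- `γ` is a Legendre multiplier sequence: whenever `∑ a_k P_k` (a finite sum) has only real zeros,
`∑ γ_k a_k P_k` has only real zeros, too. -/
def IsLegendreMultiplierSequence (γ : ℕ → ℝ) : Prop :=
  ∀ a : ℕ →₀ ℝ, OnlyRealZeros (a.sum fun k c => C c * legendreP k) →
    OnlyRealZeros (a.sum fun k c => C (γ k * c) * legendreP k)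

/-- For every real polynomial `Q` of odd degree, the sequence `Q(0), Q(1), Q(2), ...` is not a
Legendre multiplier sequence. -/
theorem result (Q : ℝ[X]) (hQ : Odd Q.natDegree) :
    ¬ IsLegendreMultiplierSequence (fun k : ℕ => Q.eval (k : ℝ)) := by
  have hP : ∀ k, (legendreP k).comp (2 * X - 1) = C ((-1 : ℝ) ^ k) * E8helper19.Leg.SL k := by
    intro k
    have hk : (k.factorial : ℝ) ≠ 0 := by exact_mod_cast k.factorial_ne_zero
    rw [legendreP, mul_comp, C_comp, E8helper19.Leg.rodrigues_comp, ← mul_assoc, ← C_mul]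
    congr 2
    field_simp
  obtain ⟨n, a, h1, h2, h3⟩ := E8helper19.Leg.main (u := fun k => (-1 : ℝ) ^ k)
    (fun k => pow_ne_zero _ (by norm_num)) hP hQ
  intro h
  have hsum : ∀ g : ℕ → ℝ → ℝ[X], (∀ k, g k 0 = 0) → (∀ k x y, g k (x + y) = g k x + g k y) →
      (∑ k ∈ Finset.range (n + 1), Finsupp.single k (a k)).sum g =
        ∑ k ∈ Finset.range (n + 1), g k (a k) := by
    intro g g0 ga
    rw [← Finsupp.sum_finsetSum_index g0 ga]
    exact Finset.sum_congr rfl fun k _ => Finsupp.sum_single_index (g0 k)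
  have h4 := h (∑ k ∈ Finset.range (n + 1), Finsupp.single k (a k))
  rw [hsum _ (by simp) (by intros; rw [C_add, add_mul]),
    hsum _ (by simp) (by intros; rw [mul_add, C_add, add_mul])] at h4
  rcases h4 (Or.inr h1) with h5 | h5
  · exact h2 h5
  · exact h3 h5

end Pool.Agent.Results.MP_87bea5_an.OddDegreeH19
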